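import Pool.Agent.helper41.Coll.Defs

/-!
# Circuits of the 3x+1 map: uniqueness and backward circuits
-/

namespace Pool.Agent.helper41.Coll

theorem isCircuit_unique {m m' m'' : ℕ} (h : IsCircuit m m') (h' : IsCircuit m m'') : m' = m'' := by
  obtain ⟨k, l, hk, hl, h1, h2, h3, h4⟩ := h
  obtain ⟨k', l', hk', hl', h1', h2', h3', h4'⟩ := h'
  have hkk : k = k' := by
    rcases lt_trichotomy k k' with h | h | h
    · exact absurd (h1' k h) (Nat.not_odd_iff_even.2 (h2 k le_rfl (by omega)))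
    · exact h
    · exact absurd (h1 k' h) (Nat.not_odd_iff_even.2 (h2' k' le_rfl (by omega)))
  subst hkk
  have hll : l = l' := by
    rcases lt_trichotomy l l' with h | h | h
    · have := h2' (k + l) (by omega) (by omega)
      rw [h4] at this
      exact absurd h3 (Nat.not_odd_iff_even.2 this)
    · exact h
    · have := h2 (k + l') (by omega) (by omega)
      rw [h4'] at this
      exact absurd h3' (Nat.not_odd_iff_even.2 this)
  subst hll
  exact h4.symm.trans h4'

theorem circuits_unique {m c : ℕ} (h : Circuits m c) : ∀ {c'}, Circuits m c' → c = c' := by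
  induction h with
  | one =>
    intro c' h'
    cases h' with
    | one => rfl
    | step h1 _ _ => exact absurd rfl h1
  | step h1 h2 _ ih =>
    intro c' h'
    cases h' with
    | one => exact absurd rfl h1
    | step h1' h2' h3' =>
      have := isCircuit_unique h2 h2'
      subst this
      rw [ih h3']

theorem hasC_unique {n c c' : ℕ} (h : HasC n c) (h' : HasC n c') : c = c' := by
  obtain ⟨j, h1, h2, h3⟩ := h
  obtain ⟨j', h1', h2', h3'⟩ := h'
  have hjj : j = j' := by
    rcases lt_trichotomy j j' with h | h | h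
    · exact absurd h2 (Nat.not_odd_iff_even.2 (h1' j h))
    · exact h
    · exact absurd h2' (Nat.not_odd_iff_even.2 (h1 j' h))
  subst hjj
  exact circuits_unique h3 h3'

theorem f_odd (q : ℕ) (hq : 2 ≤ q) : f (2 * q - 1) = 3 * q - 1 := by
  unfold f
  rw [if_neg (by omega), if_pos (by omega)]
  omega

theorem f_even (q : ℕ) : f (2 * q) = q := by
  unfold f
  rw [if_neg (by omega), if_neg (by omega)]
  omega

/-- The circuit before `m` with `k` odd and `l` even terms. -/
theorem back (m k l h : ℕ) (hm : 1 < m) (hodd : Odd m) (hk : 1 ≤ k) (hl : 1 ≤ l)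
    (hh : 3 ^ k * h = 2 ^ l * m + 1) :
    IsCircuit (2 ^ k * h - 1) m ∧ 1 < 2 ^ k * h - 1 ∧ Odd (2 ^ k * h - 1) ∧
      3 ^ k * (2 ^ k * h - 1) < 2 ^ (k + l) * m := by
  have h0 : 1 ≤ h := by
    rcases Nat.eq_zero_or_pos h with h1 | h1
    · rw [h1] at hh
      omega
    · exact h1
  have h2l : 2 ≤ 2 ^ l := by
    calc 2 = 2 ^ 1 := (pow_one 2).symm
      _ ≤ 2 ^ l := Nat.pow_le_pow_right (by norm_num) hl
  have h5 : 5 ≤ 3 ^ k * h := by
    rw [hh]
    nlinarith
  have hit : ∀ i, i ≤ k → f^[i] (2 ^ k * h - 1) = 3 ^ i * 2 ^ (k - i) * h - 1 := by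
    intro i
    induction i with
    | zero => intro _; simp
    | succ i ih =>
      intro hi
      rw [Function.iterate_succ_apply', ih (by omega)]
      obtain ⟨d, hd⟩ : ∃ d, k = i + 1 + d := ⟨k - (i + 1), by omega⟩
      have e1 : k - i = d + 1 := by omega
      have e2 : k - (i + 1) = d := by omega
      rw [e1, e2]
      have e3 : 3 ^ i * 2 ^ (d + 1) * h = 2 * (3 ^ i * 2 ^ d * h) := by ring
      have e4 : 3 ^ (i + 1) * 2 ^ d * h = 3 * (3 ^ i * 2 ^ d * h) := by ring
      rw [e3, e4]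
      apply f_odd
      by_contra hcon
      have h6 : 0 < 3 ^ i * 2 ^ d * h := by positivity
      have h7 : 3 ^ i * 2 ^ d * h = 1 := by omega
      have h8 : h = 1 := Nat.eq_one_of_mul_eq_one_left h7
      have h9 : 3 ^ i * 2 ^ d = 1 := Nat.eq_one_of_mul_eq_one_right h7
      have h10 : (3 : ℕ) ^ i = 1 := Nat.eq_one_of_mul_eq_one_right h9
      have h11 : (2 : ℕ) ^ d = 1 := Nat.eq_one_of_mul_eq_one_left h9
      have h12 : i = 0 := by
        rcases Nat.eq_zero_or_pos i with h | h
        · exact h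
        · exact absurd h10 (Nat.one_lt_pow h.ne' (by norm_num)).ne'
      have h13 : d = 0 := by
        rcases Nat.eq_zero_or_pos d with h | h
        · exact h
        · exact absurd h11 (Nat.one_lt_pow h.ne' (by norm_num)).ne'
      rw [hd, h12, h13, h8] at h5
      omega
  have hkk : f^[k] (2 ^ k * h - 1) = 2 ^ l * m := by
    rw [hit k le_rfl, Nat.sub_self, pow_zero, mul_one, hh, Nat.add_sub_cancel]
  have hit2 : ∀ j, j ≤ l → f^[k + j] (2 ^ k * h - 1) = 2 ^ (l - j) * m := by
    intro j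
    induction j with
    | zero => intro _; rw [add_zero, hkk, Nat.sub_zero]
    | succ j ih =>
      intro hj
      rw [← add_assoc, Function.iterate_succ_apply', ih (by omega)]
      obtain ⟨d, hd⟩ : ∃ d, l = j + 1 + d := ⟨l - (j + 1), by omega⟩
      have e1 : l - j = d + 1 := by omega
      have e2 : l - (j + 1) = d := by omega
      rw [e1, e2, pow_succ, mul_comm (2 ^ d) 2, mul_assoc]
      exact f_even _
  have hoddi : ∀ i < k, Odd (f^[i] (2 ^ k * h - 1)) := by
    intro i hi
    rw [hit i hi.le]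
    obtain ⟨d, hd⟩ : ∃ d, k = i + 1 + d := ⟨k - (i + 1), by omega⟩
    have e1 : k - i = d + 1 := by omega
    have e3 : 3 ^ i * 2 ^ (d + 1) * h = 2 * (3 ^ i * 2 ^ d * h) := by ring
    have h6 : 0 < 3 ^ i * 2 ^ d * h := by positivity
    rw [e1, e3]
    exact ⟨3 ^ i * 2 ^ d * h - 1, by omega⟩
  refine ⟨⟨k, l, hk, hl, hoddi, ?_, hodd, ?_⟩, ?_, ?_, ?_⟩
  · intro i hi1 hi2
    obtain ⟨j, rfl⟩ : ∃ j, i = k + j := ⟨i - k, by omega⟩
    rw [hit2 j (by omega)]
    obtain ⟨d, hd⟩ : ∃ d, l = j + 1 + d := ⟨l - (j + 1), by omega⟩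
    have e1 : l - j = d + 1 := by omega
    rw [e1, pow_succ]
    exact ⟨2 ^ d * m, by ring⟩
  · rw [hit2 l le_rfl, Nat.sub_self, pow_zero, one_mul]
  · obtain ⟨d, hd⟩ : ∃ d, k = 1 + d := ⟨k - 1, by omega⟩
    have h6 : 2 ^ k * h = 2 * (2 ^ d * h) := by rw [hd]; ring
    have h7 : 0 < 2 ^ d * h := by positivity
    by_contra hcon
    have h8 : 2 ^ d * h = 1 := by omega
    have h9 : h = 1 := Nat.eq_one_of_mul_eq_one_left h8
    have h10 : (2 : ℕ) ^ d = 1 := Nat.eq_one_of_mul_eq_one_right h8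
    have h11 : d = 0 := by
      rcases Nat.eq_zero_or_pos d with h | h
      · exact h
      · exact absurd h10 (Nat.one_lt_pow h.ne' (by norm_num)).ne'
    rw [hd, h9, h11] at h5
    omega
  · have := hoddi 0 (by omega)
    simpa using this
  · have h6 : 1 ≤ 2 ^ k * h := Nat.one_le_iff_ne_zero.2 (by positivity)
    have h7 : 3 ^ k * (2 ^ k * h) = 2 ^ (k + l) * m + 2 ^ k := by
      calc 3 ^ k * (2 ^ k * h) = 2 ^ k * (3 ^ k * h) := by ring
        _ = 2 ^ k * (2 ^ l * m + 1) := by rw [hh]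
        _ = 2 ^ (k + l) * m + 2 ^ k := by rw [pow_add]; ring
    have h8 : 2 ^ k < 3 ^ k := Nat.pow_lt_pow_left (by norm_num) (by omega)
    have h9 : 0 < 2 ^ (k + l) * m := by positivity
    rw [Nat.mul_sub, h7, mul_one]
    omega

end Pool.Agent.helper41.Coll
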