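import Pool.Agent.helper41.Coll.Back

/-!
# Circuits of the 3x+1 map: the number of circuits exists for all numbers which reach `1`
-/

namespace Pool.Agent.helper41.Coll

theorem f_eq_one {y : ℕ} (h : f y = 1) (hy : y ≠ 1) : Even y := by
  unfold f at h
  rw [if_neg hy] at h
  by_contra hodd
  rw [Nat.not_even_iff] at hodd
  rw [if_pos hodd] at h
  omega

theorem exists_circuits (T : ℕ) : ∀ m, Odd m → f^[T] m = 1 → ∃ c, Circuits m c := by
  induction T using Nat.strong_induction_on with
  | _ T ih =>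
    intro m hm hT
    by_cases hm1 : m = 1
    · exact ⟨0, by rw [hm1]; exact Circuits.one⟩
    · classical
      have hex : ∃ i, f^[i] m = 1 := ⟨T, hT⟩
      obtain ⟨T0, hT0, hT0min⟩ : ∃ T0, f^[T0] m = 1 ∧ ∀ i < T0, f^[i] m ≠ 1 :=
        ⟨Nat.find hex, Nat.find_spec hex, fun i hi => Nat.find_min hex hi⟩
      have hT0T : T0 ≤ T := by
        by_contra hcon
        exact hT0min T (by omega) hT
      have hT0pos : T0 ≠ 0 := by
        rintro rfl
        exact hm1 hT0
      obtain ⟨S, rfl⟩ : ∃ S, T0 = S + 1 := ⟨T0 - 1, by omega⟩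
      have hS : Even (f^[S] m) := by
        rw [Function.iterate_succ_apply'] at hT0
        exact f_eq_one hT0 (hT0min S (Nat.lt_succ_self S))
      have hexk : ∃ i, Even (f^[i] m) := ⟨S, hS⟩
      obtain ⟨k, hk, hkmin⟩ : ∃ k, Even (f^[k] m) ∧ ∀ i < k, ¬ Even (f^[i] m) :=
        ⟨Nat.find hexk, Nat.find_spec hexk, fun i hi => Nat.find_min hexk hi⟩
      have hkS : k ≤ S := by
        by_contra hcon
        exact hkmin S (by omega) hS
      have hk1 : 1 ≤ k := by
        rcases Nat.eq_zero_or_pos k with h | h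
        · rw [h] at hk
          exact absurd hm (Nat.not_odd_iff_even.2 hk)
        · exact h
      have hexl : ∃ j, Odd (f^[k + j] m) := ⟨S + 1 - k, by
        rw [show k + (S + 1 - k) = S + 1 by omega, hT0]
        exact odd_one⟩
      obtain ⟨l, hl, hlmin⟩ : ∃ l, Odd (f^[k + l] m) ∧ ∀ i < l, ¬ Odd (f^[k + i] m) :=
        ⟨Nat.find hexl, Nat.find_spec hexl, fun i hi => Nat.find_min hexl hi⟩
      have hl1 : 1 ≤ l := by
        rcases Nat.eq_zero_or_pos l with h | h
        · rw [h] at hl
          exact absurd hl (Nat.not_odd_iff_even.2 hk)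
        · exact h
      have hkl : k + l ≤ S + 1 := by
        by_contra hcon
        refine hlmin (S + 1 - k) (by omega) ?_
        rw [show k + (S + 1 - k) = S + 1 by omega, hT0]
        exact odd_one
      have hrest : f^[T - (k + l)] (f^[k + l] m) = 1 := by
        rw [← Function.iterate_add_apply, show T - (k + l) + (k + l) = T by omega, hT]
      obtain ⟨c, hc⟩ := ih (T - (k + l)) (by omega) _ hl hrest
      refine ⟨c + 1, Circuits.step hm1 ⟨k, l, hk1, hl1, fun i hi => ?_, fun i h1 h2 => ?_, hl, rfl⟩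
        hc⟩
      · exact Nat.not_even_iff_odd.1 (hkmin i hi)
      · have h3 := hlmin (i - k) (by omega)
        rw [show k + (i - k) = i by omega] at h3
        exact Nat.not_odd_iff_even.1 h3

theorem exists_hasC {n i : ℕ} (h : f^[i] n = 1) : ∃ c, HasC n c := by
  classical
  have hex : ∃ j, Odd (f^[j] n) := ⟨i, by rw [h]; exact odd_one⟩
  obtain ⟨j, hj, hjmin⟩ : ∃ j, Odd (f^[j] n) ∧ ∀ t < j, ¬ Odd (f^[t] n) :=
    ⟨Nat.find hex, Nat.find_spec hex, fun i hi => Nat.find_min hex hi⟩
  have hji : j ≤ i := by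
    by_contra hcon
    refine hjmin i (by omega) ?_
    rw [h]
    exact odd_one
  obtain ⟨c, hc⟩ := exists_circuits (i - j) (f^[j] n) hj (by
    rw [← Function.iterate_add_apply, show i - j + j = i by omega, h])
  exact ⟨c, j, fun t ht => Nat.not_odd_iff_even.1 (hjmin t ht), hj, hc⟩

end Pool.Agent.helper41.Coll
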