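import Mathlib

/-!
# Circuits of the 3x+1 map: definitions
-/

namespace Pool.Agent.helper41.Coll

/-- The `3x+1` map with `f 1 = 1`. -/
def f (n : ℕ) : ℕ := if n = 1 then 1 else if n % 2 = 1 then (3 * n + 1) / 2 else n / 2

/-- The iterates of `m` begin with a circuit which ends in `m'`: `k ≥ 1` odd terms, then `l ≥ 1` even
terms, then the odd number `m'`. -/
def IsCircuit (m m' : ℕ) : Prop :=
  ∃ k l : ℕ, 1 ≤ k ∧ 1 ≤ l ∧ (∀ i < k, Odd (f^[i] m)) ∧
    (∀ i, k ≤ i → i < k + l → Even (f^[i] m)) ∧ Odd m' ∧ f^[k + l] m = m'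

/-- The odd number `m` reaches `1` after exactly `c` consecutive circuits (up to the first visit to
`1`). -/
inductive Circuits : ℕ → ℕ → Prop
  | one : Circuits 1 0
  | step {m m' c : ℕ} : m ≠ 1 → IsCircuit m m' → Circuits m' c → Circuits m (c + 1)

/-- `C n = c`: the trajectory of `n` from its first odd term to its first visit to `1` splits into
exactly `c` circuits (in particular it reaches `1`). -/
def HasC (n c : ℕ) : Prop :=
  ∃ j, (∀ i < j, Even (f^[i] n)) ∧ Odd (f^[j] n) ∧ Circuits (f^[j] n) c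

end Pool.Agent.helper41.Coll
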