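import Pool.Agent.helper41.Coll.Step

/-!
# Circuits of the 3x+1 map: infinitely many `n` with `C n ≥ (5/4) log n`
-/

namespace Pool.Agent.helper41.Coll

theorem seq (m c : ℕ) (hm : 1 < m) (hodd : Odd m) (h3 : m % 3 ≠ 0) (hc : Circuits m c) :
    ∀ j : ℕ, ∃ n, 1 < n ∧ Odd n ∧ n % 3 ≠ 0 ∧ Circuits n (c + j) ∧ (∃ i, f^[i] n = m) ∧
      50 ^ j * (n * wt (n % 6561)) ≤ 111 ^ j * (m * wt (m % 6561)) := by
  intro j
  induction j with
  | zero => exact ⟨m, hm, hodd, h3, hc, ⟨0, rfl⟩, le_rfl⟩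
  | succ j ih =>
    obtain ⟨n, h1, h2, h4, h5, ⟨i, hi⟩, h6⟩ := ih
    obtain ⟨n', h1', h2', h4', h5', h6'⟩ := step n h1 h2 h4
    refine ⟨n', h1', h2', h4', Circuits.step h1'.ne' h5' h5, ?_, ?_⟩
    · obtain ⟨k, l, -, -, -, -, -, h7⟩ := h5'
      exact ⟨i + (k + l), by rw [Function.iterate_add_apply, h7, hi]⟩
    · calc 50 ^ (j + 1) * (n' * wt (n' % 6561)) = 50 ^ j * (50 * (n' * wt (n' % 6561))) := by ring
        _ ≤ 50 ^ j * (111 * (n * wt (n % 6561))) := Nat.mul_le_mul_left _ h6'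
        _ = 111 * (50 ^ j * (n * wt (n % 6561))) := by ring
        _ ≤ 111 * (111 ^ j * (m * wt (m % 6561))) := Nat.mul_le_mul_left _ h6
        _ = 111 ^ (j + 1) * (m * wt (m % 6561)) := by ring

theorem log_lt : Real.log (111 / 50) < 4 / 5 := by
  have h1 : Real.log ((111 / 50 : ℝ) ^ 5) < 4 := by
    rw [Real.log_lt_iff_lt_exp (by positivity)]
    have h2 : Real.exp 4 = Real.exp 1 ^ 4 := by
      rw [← Real.exp_nat_mul]
      norm_num
    rw [h2]
    have h3 := Real.exp_one_gt_d9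
    calc (111 / 50 : ℝ) ^ 5 < 2.7182818283 ^ 4 := by norm_num
      _ ≤ Real.exp 1 ^ 4 := pow_le_pow_left₀ (by norm_num) h3.le 4
  rw [Real.log_pow] at h1
  push_cast at h1
  linarith

theorem main (m c : ℕ) (hm : 1 < m) (hodd : Odd m) (h3 : m % 3 ≠ 0) (hc : Circuits m c) :
    {n : ℕ | (∃ i, f^[i] n = m) ∧ ∃ c' : ℕ, HasC n c' ∧
      5 / 4 * Real.log n ≤ (c' : ℝ)}.Infinite := by
  have hw := wt_pos m h3
  set A := m * wt (m % 6561) with hA
  have hA1 : 1 ≤ A := Nat.mul_pos (by omega) hw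
  obtain ⟨J, hJ⟩ := exists_nat_ge (5 / 4 * Real.log A / (1 - 5 / 4 * Real.log (111 / 50)))
  have hpos : 0 < 1 - 5 / 4 * Real.log (111 / 50) := by
    have := log_lt
    linarith
  rw [div_le_iff₀ hpos] at hJ
  choose g hg using fun j => seq m c hm hodd h3 hc j
  refine Set.infinite_of_injective_forall_mem (f := fun j : ℕ => g (J + j)) ?_ ?_
  · intro i j hij
    have h1 := (hg (J + i)).2.2.2.1
    have h2 := (hg (J + j)).2.2.2.1
    have h4 : g (J + i) = g (J + j) := hij
    rw [h4] at h1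
    have := circuits_unique h1 h2
    omega
  · intro j
    obtain ⟨h1, h2, h4, h5, h6, h7⟩ := hg (J + j)
    refine ⟨h6, c + (J + j), ⟨0, by simp, h2, h5⟩, ?_⟩
    set n := g (J + j) with hn
    have hn0 : (0 : ℝ) < n := by
      have : 0 < n := by omega
      exact_mod_cast this
    have hwn := wt_pos n h4
    have h8 : 50 ^ (J + j) * n ≤ 111 ^ (J + j) * A := by
      refine le_trans ?_ h7
      exact Nat.mul_le_mul_left _ (Nat.le_mul_of_pos_right _ hwn)
    have h9 : (50 : ℝ) ^ (J + j) * n ≤ 111 ^ (J + j) * A := by exact_mod_cast h8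
    have h10 : (n : ℝ) ≤ (111 / 50) ^ (J + j) * A := by
      rw [div_pow, div_mul_eq_mul_div, le_div_iff₀ (by positivity), mul_comm]
      exact h9
    have hA0 : (0 : ℝ) < A := by exact_mod_cast hA1
    have h11 : Real.log n ≤ (J + j : ℕ) * Real.log (111 / 50) + Real.log A := by
      have := Real.log_le_log hn0 h10
      rwa [Real.log_mul (by positivity) hA0.ne', Real.log_pow] at this
    have h12 : (J : ℝ) * (1 - 5 / 4 * Real.log (111 / 50)) ≤
        ((J + j : ℕ) : ℝ) * (1 - 5 / 4 * Real.log (111 / 50)) := by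
      apply mul_le_mul_of_nonneg_right _ hpos.le
      push_cast
      have : (0 : ℝ) ≤ j := Nat.cast_nonneg _
      linarith
    have h13 : 5 / 4 * Real.log n ≤
        5 / 4 * ((J + j : ℕ) * Real.log (111 / 50) + Real.log A) :=
      mul_le_mul_of_nonneg_left h11 (by norm_num)
    have h14 : (0 : ℝ) ≤ (c : ℝ) := Nat.cast_nonneg _
    have h15 : ((c + (J + j) : ℕ) : ℝ) = c + ((J + j : ℕ) : ℝ) := by push_cast; ring
    rw [h15]
    nlinarith

/-- the number `5` reaches `1` in one circuit -/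
theorem circuits_five : Circuits 5 1 := by
  refine Circuits.step (by norm_num) ⟨1, 3, le_rfl, by norm_num, ?_, ?_, odd_one, ?_⟩ Circuits.one
  · intro i hi
    interval_cases i
    decide
  · intro i hi1 hi2
    interval_cases i <;> decide
  · decide

end Pool.Agent.helper41.Coll
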