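import Pool.Agent.helper41.Coll.Back
import Pool.Agent.helper41.Coll.Table

/-!
# Circuits of the 3x+1 map: one backward step with the weights of the table
-/

namespace Pool.Agent.helper41.Coll

theorem chk_of (a : ℕ) (ha : a < 6561) : chk a = true := by
  have h := chk_all
  rw [List.all_eq_true] at h
  have h1 := h (a / 81) (List.mem_range.2 (by omega))
  rw [List.all_eq_true] at h1
  have h2 := h1 (a % 81) (List.mem_range.2 (by omega))
  rwa [Nat.div_add_mod] at h2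

theorem chk1_spec {a k l : ℕ} (h : chk1 a k l = true) :
    1 ≤ k ∧ k ≤ 7 ∧ 1 ≤ l ∧ (2 ^ l * a + 1) % 3 ^ k = 0 ∧
      (2 ^ k * ((2 ^ l * a + 1) / 3 ^ k) + 2) % 3 ≠ 0 ∧
      ∀ j < 3 ^ k, wt ((2 ^ k * ((2 ^ l * a + 1) / 3 ^ k) - 1) % 3 ^ (8 - k) + j * 3 ^ (8 - k)) *
        (2 ^ (k + l) * 50) ≤ 111 * 3 ^ k * wt a := by
  unfold chk1 at h
  rw [Bool.and_eq_true, Bool.and_eq_true, Bool.and_eq_true, Bool.and_eq_true, Bool.and_eq_true,
    List.all_eq_true] at h
  obtain ⟨⟨⟨⟨⟨h1, h2⟩, h3⟩, h4⟩, h5⟩, h6⟩ := h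
  refine ⟨Nat.le_of_ble_eq_true h1, Nat.le_of_ble_eq_true h2, Nat.le_of_ble_eq_true h3,
    Nat.eq_of_beq_eq_true h4, ?_, fun j hj => ?_⟩
  · intro h7
    rw [h7] at h5
    exact absurd h5 (by decide)
  · exact Nat.le_of_ble_eq_true (h6 j (List.mem_range.2 hj))

theorem wt_pos (m : ℕ) (h3 : m % 3 ≠ 0) : 1 ≤ wt (m % 6561) := by
  have h := chk_of (m % 6561) (Nat.mod_lt _ (by norm_num))
  unfold chk at h
  rw [Bool.or_eq_true, Bool.and_eq_true] at h
  rcases h with h | h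
  · have := Nat.eq_of_beq_eq_true h
    omega
  · exact Nat.le_of_ble_eq_true h.1

theorem step (m : ℕ) (hm : 1 < m) (hodd : Odd m) (h3 : m % 3 ≠ 0) :
    ∃ n, 1 < n ∧ Odd n ∧ n % 3 ≠ 0 ∧ IsCircuit n m ∧
      50 * (n * wt (n % 6561)) ≤ 111 * (m * wt (m % 6561)) := by
  have h := chk_of (m % 6561) (Nat.mod_lt _ (by norm_num))
  unfold chk at h
  rw [Bool.or_eq_true, Bool.and_eq_true] at h
  rcases h with h | h
  · have := Nat.eq_of_beq_eq_true h
    omega
  · obtain ⟨hk, hk7, hl, hd, hn3, hj⟩ := chk1_spec h.2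
    set a := m % 6561 with ha
    set t := m / 6561 with ht
    have hmat : m = 6561 * t + a := (Nat.div_add_mod m 6561).symm
    generalize mk a = k at *
    generalize ml a = l at *
    obtain ⟨h', hh'⟩ : 3 ^ k ∣ 2 ^ l * a + 1 := Nat.dvd_of_mod_eq_zero hd
    have h3k : 0 < 3 ^ k := by positivity
    rw [hh', Nat.mul_div_cancel_left _ h3k] at hn3
    rw [hh', Nat.mul_div_cancel_left _ h3k] at hj
    have h38 : 3 ^ k * 3 ^ (8 - k) = 6561 := by
      rw [← pow_add, show k + (8 - k) = 8 by omega]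
      norm_num
    have hh : 3 ^ k * (h' + 2 ^ l * 3 ^ (8 - k) * t) = 2 ^ l * m + 1 := by
      calc 3 ^ k * (h' + 2 ^ l * 3 ^ (8 - k) * t)
          = 3 ^ k * h' + 2 ^ l * (3 ^ k * 3 ^ (8 - k)) * t := by ring
        _ = 2 ^ l * a + 1 + 2 ^ l * 6561 * t := by rw [hh', h38]
        _ = 2 ^ l * m + 1 := by
          conv_rhs => rw [hmat]
          ring
    obtain ⟨hc, h1, ho, hlt⟩ := back m k l _ hm hodd hk hl hh
    have h0 : 1 ≤ h' := by
      rcases Nat.eq_zero_or_pos h' with h1 | h1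
      · rw [h1] at hh'
        omega
      · exact h1
    have h2k : 1 ≤ 2 ^ k * h' := Nat.one_le_iff_ne_zero.2 (by positivity)
    have hn : 2 ^ k * (h' + 2 ^ l * 3 ^ (8 - k) * t) - 1 =
        (2 ^ k * h' - 1) + 3 ^ (8 - k) * (2 ^ (k + l) * t) := by
      have : 2 ^ k * (h' + 2 ^ l * 3 ^ (8 - k) * t) =
          2 ^ k * h' + 3 ^ (8 - k) * (2 ^ (k + l) * t) := by
        rw [pow_add]; ring
      rw [this]
      omega
    set n := 2 ^ k * (h' + 2 ^ l * 3 ^ (8 - k) * t) - 1 with hndef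
    have h3d : 3 ^ (8 - k) = 3 * 3 ^ (7 - k) := by
      rw [← pow_succ', show 8 - k = 7 - k + 1 by omega]
    refine ⟨n, h1, ho, ?_, hc, ?_⟩
    · rw [hn, h3d, mul_assoc, Nat.add_mul_mod_self_left]
      omega
    · -- the residue of `n`
      have hb : n % 6561 % 3 ^ (8 - k) = (2 ^ k * h' - 1) % 3 ^ (8 - k) := by
        rw [Nat.mod_mod_of_dvd _ ⟨3 ^ k, by rw [mul_comm]; exact h38.symm⟩, hn,
          Nat.add_mul_mod_self_left]
      have hjl : n % 6561 / 3 ^ (8 - k) < 3 ^ k := by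
        rw [Nat.div_lt_iff_lt_mul (by positivity), h38]
        exact Nat.mod_lt _ (by norm_num)
      have h4 := hj _ hjl
      rw [← hb, mul_comm (n % 6561 / 3 ^ (8 - k)), Nat.mod_add_div] at h4
      -- the inequality
      have h5 : 3 ^ k * (50 * (n * wt (n % 6561))) ≤ 3 ^ k * (111 * (m * wt a)) := by
        calc 3 ^ k * (50 * (n * wt (n % 6561)))
            = (3 ^ k * n) * (50 * wt (n % 6561)) := by ring
          _ ≤ (2 ^ (k + l) * m) * (50 * wt (n % 6561)) := Nat.mul_le_mul_right _ hlt.le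
          _ = m * (wt (n % 6561) * (2 ^ (k + l) * 50)) := by ring
          _ ≤ m * (111 * 3 ^ k * wt a) := Nat.mul_le_mul_left _ h4
          _ = 3 ^ k * (111 * (m * wt a)) := by ring
      exact Nat.le_of_mul_le_mul_left h5 h3k

end Pool.Agent.helper41.Coll
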